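import Pool.Agent.H87.LUY.Stmts

/-!
Project LU, part Y, module CPX: the boundary matrices form a complex.
-/

set_option autoImplicit false

open scoped BigOperators

noncomputable section

namespace Pool.LU.FK

namespace Cpx

theorem subsum {α : Type} [Fintype α] (P : α → Prop) [DecidablePred P]
    [inst : Fintype {x // P x}] (f : α → ℝ) :
    ∑ q : {x // P x}, f q.1 = ∑ x, if P x then f x else 0 := by
  rw [← Finset.sum_filter]
  exact (Finset.sum_subtype _ (by simp) f).symm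

theorem sadj_symm {u v : SV} (h : sadj u v) : sadj v u :=
  ⟨fun e => h.1 e.symm, h.2.symm⟩

variable (Y : YSet)

theorem sum1 (f : SV × Y.X → ℝ) :
    ∑ q : C1a Y ⊕ C1b Y, f (e1 Y q) = ∑ x : SV × Y.X, if Y.χ x.1 x.2 = 1 then f x else 0 := by
  rw [Fintype.sum_sum_type]
  have h1 : ∑ q : C1a Y, f (e1 Y (Sum.inl q)) =
      ∑ x : SV × Y.X, if (x.1 ≠ v1 ∧ x.1 ≠ v2) ∧ Y.χ x.1 x.2 = 1 then f x else 0 :=
    subsum (fun p : SV × Y.X => (p.1 ≠ v1 ∧ p.1 ≠ v2) ∧ Y.χ p.1 p.2 = 1)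
      (inst := inferInstanceAs (Fintype (C1a Y))) f
  have h2 : ∑ q : C1b Y, f (e1 Y (Sum.inr q)) =
      ∑ x : SV × Y.X, if (x.1 = v1 ∨ x.1 = v2) ∧ Y.χ x.1 x.2 = 1 then f x else 0 :=
    subsum (fun p : SV × Y.X => (p.1 = v1 ∨ p.1 = v2) ∧ Y.χ p.1 p.2 = 1)
      (inst := inferInstanceAs (Fintype (C1b Y))) f
  rw [h1, h2, ← Finset.sum_add_distrib]
  refine Finset.sum_congr rfl fun x _ => ?_
  by_cases hx : Y.χ x.1 x.2 = 1
  · by_cases ha : x.1 = v1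
    · simp [ha]
    · by_cases hb : x.1 = v2
      · simp [hb]
      · simp [hx, ha, hb]
  · simp [hx]

/-- the 2-cells -/
def K2 (x : (SV × SV) × Y.X) : Prop :=
  ((nz x.1.1 = 0 ∧ sadj x.1.1 x.1.2) ∨ (nz x.1.1 = 1 ∧ nz x.1.2 = 2 ∧ sadj x.1.1 x.1.2)) ∧
    Y.χ x.1.1 x.2 = 1 ∧ Y.χ x.1.2 x.2 = 1

instance : DecidablePred (K2 Y) := fun x => by unfold K2; infer_instance

theorem sum2 (f : (SV × SV) × Y.X → ℝ) :
    ∑ q : C2a Y ⊕ C2b Y, f (e2 Y q) = ∑ x : (SV × SV) × Y.X, if K2 Y x then f x else 0 := by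
  rw [Fintype.sum_sum_type]
  have h1 : ∑ q : C2a Y, f (e2 Y (Sum.inl q)) =
      ∑ x : (SV × SV) × Y.X, if (nz x.1.1 = 0 ∧ sadj x.1.1 x.1.2) ∧
        Y.χ x.1.1 x.2 = 1 ∧ Y.χ x.1.2 x.2 = 1 then f x else 0 :=
    subsum (fun x : (SV × SV) × Y.X => (nz x.1.1 = 0 ∧ sadj x.1.1 x.1.2) ∧
        Y.χ x.1.1 x.2 = 1 ∧ Y.χ x.1.2 x.2 = 1)
      (inst := inferInstanceAs (Fintype (C2a Y))) f
  have h2 : ∑ q : C2b Y, f (e2 Y (Sum.inr q)) =
      ∑ x : (SV × SV) × Y.X, if (nz x.1.1 = 1 ∧ nz x.1.2 = 2 ∧ sadj x.1.1 x.1.2) ∧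
        Y.χ x.1.1 x.2 = 1 ∧ Y.χ x.1.2 x.2 = 1 then f x else 0 :=
    subsum (fun x : (SV × SV) × Y.X => (nz x.1.1 = 1 ∧ nz x.1.2 = 2 ∧ sadj x.1.1 x.1.2) ∧
        Y.χ x.1.1 x.2 = 1 ∧ Y.χ x.1.2 x.2 = 1)
      (inst := inferInstanceAs (Fintype (C2b Y))) f
  rw [h1, h2, ← Finset.sum_add_distrib]
  refine Finset.sum_congr rfl fun x _ => ?_
  unfold K2
  by_cases hx : Y.χ x.1.1 x.2 = 1 ∧ Y.χ x.1.2 x.2 = 1
  · by_cases h0 : nz x.1.1 = 0
    · simp [hx, h0]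
    · simp [hx, h0]
  · simp [hx]

theorem dfsum {C : Y.X → Prop} [DecidablePred C] (a : SV) (y : Y.X) (h : Y.X → ℝ) (hy : C y)
    (hay : C (Y.ρ a y)) :
    ∑ y', (if C y' then df Y a y y' * h y' else 0) = h y - h (Y.ρ a y) := by
  have : ∀ y', (if C y' then df Y a y y' * h y' else 0) =
      (if y' = y then h y' else 0) - (if y' = Y.ρ a y then h y' else 0) := by
    intro y'
    unfold df
    by_cases h1 : y' = y
    · subst h1
      by_cases h2 : y' = Y.ρ a y'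
      · simp [hy, ← h2]
      · simp [hy, h2]
    · by_cases h2 : y' = Y.ρ a y
      · subst h2
        simp [hay, h1]
      · simp [h1, h2]
  simp only [this, Finset.sum_sub_distrib, Finset.sum_ite_eq', Finset.mem_univ, if_true]

theorem pick {C : (SV × SV) × Y.X → Prop} [DecidablePred C] (b c : SV) (g : Y.X → ℝ)
    (h : (SV × SV) × Y.X → ℝ) :
    ∑ x : (SV × SV) × Y.X, (if C x then (if x.1.1 = b ∧ x.1.2 = c then g x.2 else 0) * h x
      else 0) = ∑ y', if C ((b, c), y') then g y' * h ((b, c), y') else 0 := by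
  rw [Fintype.sum_prod_type, Finset.sum_eq_single (b, c)]
  · simp
  · rintro ⟨s, t⟩ _ hst
    refine Finset.sum_eq_zero fun y' _ => ?_
    have : ¬ (s = b ∧ t = c) := fun h' => hst (by rw [h'.1, h'.2])
    simp [this]
  · simp

theorem pick1 {C : SV × Y.X → Prop} [DecidablePred C] (b : SV) (g : Y.X → ℝ)
    (h : SV × Y.X → ℝ) :
    ∑ x : SV × Y.X, (if C x then (if x.1 = b then g x.2 else 0) * h x
      else 0) = ∑ y', if C (b, y') then g y' * h (b, y') else 0 := by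
  rw [Fintype.sum_prod_type, Finset.sum_eq_single b]
  · simp
  · rintro s _ hst
    refine Finset.sum_eq_zero fun y' _ => ?_
    simp [hst]
  · simp

/-- the differences commute -/
theorem df_comm {a b : SV} (h : sadj a b) (y z : Y.X) :
    df Y b y z - df Y b (Y.ρ a y) z = df Y a y z - df Y a (Y.ρ b y) z := by
  unfold df
  rw [Y.comm a b h y]
  ring

theorem d21 : D2 Y * D1 Y = 0 := by
  ext p z
  rw [Matrix.mul_apply, Matrix.zero_apply]
  obtain ⟨hab, ha, hb⟩ : sadj (e2 Y p).1.1 (e2 Y p).1.2 ∧ Y.χ (e2 Y p).1.1 (e2 Y p).2 = 1 ∧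
      Y.χ (e2 Y p).1.2 (e2 Y p).2 = 1 := by
    rcases p with p | p
    · exact ⟨p.2.1.2, p.2.2.1, p.2.2.2⟩
    · exact ⟨p.2.1.2.2, p.2.2.1, p.2.2.2⟩
  have e : ∀ q, D2 Y p q * D1 Y q z = (fun x : SV × Y.X =>
      d2 Y (e2 Y p).1.1 (e2 Y p).1.2 (e2 Y p).2 x.1 x.2 * df Y x.1 x.2 z) (e1 Y q) :=
    fun q => rfl
  simp only [e]
  rw [sum1 Y (fun x : SV × Y.X =>
      d2 Y (e2 Y p).1.1 (e2 Y p).1.2 (e2 Y p).2 x.1 x.2 * df Y x.1 x.2 z)]
  generalize (e2 Y p).1.1 = a at *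
  generalize (e2 Y p).1.2 = b at *
  generalize (e2 Y p).2 = y at *
  have e3 : ∀ x : SV × Y.X, (if Y.χ x.1 x.2 = 1 then d2 Y a b y x.1 x.2 * df Y x.1 x.2 z else 0) =
      (if Y.χ x.1 x.2 = 1 then (if x.1 = b then (fun y' => df Y a y y') x.2 else 0) *
        (fun x : SV × Y.X => df Y x.1 x.2 z) x else 0) -
      (if Y.χ x.1 x.2 = 1 then (if x.1 = a then (fun y' => df Y b y y') x.2 else 0) *
        (fun x : SV × Y.X => df Y x.1 x.2 z) x else 0) := by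
    intro x
    unfold d2
    split_ifs <;> ring
  simp only [e3]
  rw [Finset.sum_sub_distrib, pick1 Y (C := fun x => Y.χ x.1 x.2 = 1) b,
    pick1 Y (C := fun x => Y.χ x.1 x.2 = 1) a]
  rw [dfsum Y (C := fun y' => Y.χ b y' = 1) a y (fun y' => df Y b y' z) hb
      (by rw [Y.χ_adj b a (sadj_symm hab)]; exact hb),
    dfsum Y (C := fun y' => Y.χ a y' = 1) b y (fun y' => df Y a y' z) ha
      (by rw [Y.χ_adj a b hab]; exact ha)]
  rw [df_comm Y hab y z]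
  ring

theorem d32 : D3 Y * D2 Y = 0 := by
  ext p q
  rw [Matrix.mul_apply, Matrix.zero_apply]
  obtain ⟨⟨n0, n1, n2, hab, hbc, hac⟩, ha, hb, hc⟩ := p.2
  have e : ∀ r, D3 Y p r * D2 Y r q = (fun x : (SV × SV) × Y.X =>
      d3 Y p.1.1.1 p.1.1.2.1 p.1.1.2.2 p.1.2 x.1.1 x.1.2 x.2 *
        d2 Y x.1.1 x.1.2 x.2 (e1 Y q).1 (e1 Y q).2) (e2 Y r) :=
    fun r => rfl
  simp only [e]
  rw [sum2 Y (fun x : (SV × SV) × Y.X =>
      d3 Y p.1.1.1 p.1.1.2.1 p.1.1.2.2 p.1.2 x.1.1 x.1.2 x.2 *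
        d2 Y x.1.1 x.1.2 x.2 (e1 Y q).1 (e1 Y q).2)]
  generalize p.1.1.1 = a at *
  generalize p.1.1.2.1 = b at *
  generalize p.1.1.2.2 = c at *
  generalize p.1.2 = y at *
  generalize (e1 Y q).1 = u at *
  generalize (e1 Y q).2 = z at *
  set H : (SV × SV) × Y.X → ℝ := fun x => d2 Y x.1.1 x.1.2 x.2 u z with hH
  have e3 : ∀ x : (SV × SV) × Y.X, (if K2 Y x then d3 Y a b c y x.1.1 x.1.2 x.2 *
      d2 Y x.1.1 x.1.2 x.2 u z else 0) =
      ((if K2 Y x then (if x.1.1 = b ∧ x.1.2 = c then (fun y' => df Y a y y') x.2 else 0) *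
        H x else 0) -
      (if K2 Y x then (if x.1.1 = a ∧ x.1.2 = c then (fun y' => df Y b y y') x.2 else 0) *
        H x else 0)) +
      (if K2 Y x then (if x.1.1 = a ∧ x.1.2 = b then (fun y' => df Y c y y') x.2 else 0) *
        H x else 0) := by
    intro x
    rw [hH]
    unfold d3
    split_ifs <;> ring
  simp only [e3]
  rw [Finset.sum_add_distrib, Finset.sum_sub_distrib, pick Y (C := K2 Y) b c,
    pick Y (C := K2 Y) a c, pick Y (C := K2 Y) a b]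
  have kbc : ∀ y', Y.χ b y' = 1 → Y.χ c y' = 1 → K2 Y ((b, c), y') := fun y' h1 h2 =>
    ⟨Or.inr ⟨n1, n2, hbc⟩, h1, h2⟩
  have kac : ∀ y', Y.χ a y' = 1 → Y.χ c y' = 1 → K2 Y ((a, c), y') := fun y' h1 h2 =>
    ⟨Or.inl ⟨n0, hac⟩, h1, h2⟩
  have kab : ∀ y', Y.χ a y' = 1 → Y.χ b y' = 1 → K2 Y ((a, b), y') := fun y' h1 h2 =>
    ⟨Or.inl ⟨n0, hab⟩, h1, h2⟩
  have hba := sadj_symm hab
  have hca := sadj_symm hac
  have hcb := sadj_symm hbc
  rw [dfsum Y (C := fun y' => K2 Y ((b, c), y')) a y (fun y' => H ((b, c), y')) (kbc y hb hc)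
      (kbc _ (by rw [Y.χ_adj b a hba]; exact hb) (by rw [Y.χ_adj c a hca]; exact hc)),
    dfsum Y (C := fun y' => K2 Y ((a, c), y')) b y (fun y' => H ((a, c), y')) (kac y ha hc)
      (kac _ (by rw [Y.χ_adj a b hab]; exact ha) (by rw [Y.χ_adj c b hcb]; exact hc)),
    dfsum Y (C := fun y' => K2 Y ((a, b), y')) c y (fun y' => H ((a, b), y')) (kab y ha hb)
      (kab _ (by rw [Y.χ_adj a c hac]; exact ha) (by rw [Y.χ_adj b c hbc]; exact hb))]
  have c1 := df_comm Y hab y z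
  have c2 := df_comm Y hac y z
  have c3 := df_comm Y hbc y z
  simp only [hH, d2]
  split_ifs <;> linarith

end Cpx

theorem cpx : CPXStmt := fun Y => ⟨Cpx.d21 Y, Cpx.d32 Y⟩

end Pool.LU.FK
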