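import Pool.Agent.H87.LUY.Stmts

/-!
Project LU, part Y, module FUI: the main inequality for a based complex.
-/

set_option autoImplicit false

open scoped BigOperators
open Matrix

noncomputable section

namespace Pool.LU.FK

namespace Fui

section gdl

variable {I J K L : Type} [Fintype I] [DecidableEq I] [Fintype J] [DecidableEq J] [Fintype K]
  [DecidableEq K] [Fintype L] [DecidableEq L]

theorem psd_mul_transpose (Z : Matrix I J ℝ) : (Z * Z.transpose).PosSemidef := by
  have := Matrix.posSemidef_self_mul_conjTranspose Z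
  rwa [Matrix.conjTranspose_eq_transpose_of_trivial] at this

theorem gd_nonneg {η : ℝ} (hη : 0 ≤ η) (Z : Matrix I J ℝ) : 0 ≤ gd η Z := by
  unfold gd
  exact ((psd_mul_transpose Z).add (Matrix.PosSemidef.one.smul hη)).det_nonneg

/-- a block diagonal matrix with a unit block below -/
theorem gd_one_below (η : ℝ) (Z : Matrix I J ℝ) :
    gd η (Matrix.fromBlocks Z 0 0 (1 : Matrix L L ℝ)) = gd η Z * (1 + η) ^ (Fintype.card L) := by
  unfold gd
  rw [Matrix.fromBlocks_transpose, Matrix.fromBlocks_multiply, ← Matrix.fromBlocks_one,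
    Matrix.fromBlocks_smul, Matrix.fromBlocks_add]
  simp only [Matrix.transpose_zero, Matrix.mul_zero, Matrix.zero_mul, add_zero, zero_add,
    Matrix.transpose_one, Matrix.mul_one, smul_zero]
  rw [Matrix.det_fromBlocks_zero₂₁]
  congr 1
  have : (1 : Matrix L L ℝ) + η • (1 : Matrix L L ℝ) = (1 + η) • (1 : Matrix L L ℝ) := by
    rw [add_smul, one_smul]
  rw [this, Matrix.det_smul, Matrix.det_one, mul_one]

theorem gd_one_above (η : ℝ) (Z : Matrix I J ℝ) :
    gd η (Matrix.fromBlocks (1 : Matrix L L ℝ) 0 0 Z) = (1 + η) ^ (Fintype.card L) * gd η Z := by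
  unfold gd
  rw [Matrix.fromBlocks_transpose, Matrix.fromBlocks_multiply, ← Matrix.fromBlocks_one,
    Matrix.fromBlocks_smul, Matrix.fromBlocks_add]
  simp only [Matrix.transpose_zero, Matrix.mul_zero, Matrix.zero_mul, add_zero, zero_add,
    Matrix.transpose_one, Matrix.mul_one, smul_zero]
  rw [Matrix.det_fromBlocks_zero₂₁]
  congr 1
  have : (1 : Matrix L L ℝ) + η • (1 : Matrix L L ℝ) = (1 + η) • (1 : Matrix L L ℝ) := by
    rw [add_smul, one_smul]
  rw [this, Matrix.det_smul, Matrix.det_one, mul_one]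

end gdl

variable {c0 c1a c1b c2a c2b c3 : Type} [Fintype c0] [DecidableEq c0]
  [Fintype c1a] [DecidableEq c1a] [Fintype c1b] [DecidableEq c1b] [Fintype c2a] [DecidableEq c2a]
  [Fintype c2b] [DecidableEq c2b] [Fintype c3] [DecidableEq c3]

/-- the rows -/
def U (D1 : Matrix (c1a ⊕ c1b) c0 ℝ) : Matrix (c1a ⊕ c0) (c1a ⊕ c1b) ℝ :=
  fromRows (fromCols 1 0) D1.transpose

/-- the columns -/
def V (D3 : Matrix c3 (c2a ⊕ c2b) ℝ) : Matrix (c2a ⊕ c2b) (c2a ⊕ c3) ℝ :=
  fromCols (fromRows 1 0) D3.transpose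

/-- the middle -/
def F (D1 : Matrix (c1a ⊕ c1b) c0 ℝ) (D2 : Matrix (c2a ⊕ c2b) (c1a ⊕ c1b) ℝ)
    (D3 : Matrix c3 (c2a ⊕ c2b) ℝ) : Matrix ((c1a ⊕ c1b) ⊕ c3) (c0 ⊕ (c2a ⊕ c2b)) ℝ :=
  fromBlocks D1 D2.transpose 0 D3

variable (D1 : Matrix (c1a ⊕ c1b) c0 ℝ) (D2 : Matrix (c2a ⊕ c2b) (c1a ⊕ c1b) ℝ)
  (D3 : Matrix c3 (c2a ⊕ c2b) ℝ)

theorem prod_eq (h21 : D2 * D1 = 0) (h32 : D3 * D2 = 0) :
    fromBlocks (U D1) 0 0 (1 : Matrix c3 c3 ℝ) * (F D1 D2 D3 *
      fromBlocks (1 : Matrix c0 c0 ℝ) 0 0 (V D3)) =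
    fromBlocks (fromRows D1.toRows₁ (D1.transpose * D1)) (fromBlocks D2.toBlocks₁₁.transpose 0 0 0)
      0 (fromCols D3.toCols₁ (D3 * D3.transpose)) := by
  have t21 : D1.transpose * D2.transpose = 0 := by
    rw [← Matrix.transpose_mul, h21, Matrix.transpose_zero]
  have t32 : D2.transpose * D3.transpose = 0 := by
    rw [← Matrix.transpose_mul, h32, Matrix.transpose_zero]
  unfold F
  rw [Matrix.fromBlocks_multiply, Matrix.fromBlocks_multiply]
  simp only [Matrix.mul_zero, Matrix.zero_mul, add_zero, zero_add, Matrix.mul_one, Matrix.one_mul]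
  have e1 : U D1 * D1 = fromRows D1.toRows₁ (D1.transpose * D1) := by
    unfold U
    rw [Matrix.fromRows_mul]
    congr 1
    conv_lhs => rw [← Matrix.fromRows_toRows D1]
    rw [Matrix.fromCols_mul_fromRows, Matrix.one_mul, Matrix.zero_mul, add_zero]
  have e2 : D3 * V D3 = fromCols D3.toCols₁ (D3 * D3.transpose) := by
    unfold V
    rw [Matrix.mul_fromCols]
    congr 1
    conv_lhs => rw [← Matrix.fromCols_toCols D3]
    rw [Matrix.fromCols_mul_fromRows, Matrix.mul_one, Matrix.mul_zero, add_zero]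
  have e3 : U D1 * (D2.transpose * V D3) = fromBlocks D2.toBlocks₁₁.transpose 0 0 0 := by
    unfold U V
    rw [Matrix.mul_fromCols, t32, Matrix.fromRows_mul_fromCols, Matrix.mul_zero, Matrix.mul_zero,
      ← Matrix.mul_assoc D1.transpose, t21, Matrix.zero_mul]
    congr 1
    conv_lhs => rw [← Matrix.fromBlocks_toBlocks D2]
    rw [Matrix.fromBlocks_transpose, Matrix.fromBlocks_mul_fromRows, Matrix.fromCols_mul_fromRows]
    simp
  rw [e1, e2, e3]

theorem gdF (h32 : D3 * D2 = 0) (ε : ℝ) : gd ε (F D1 D2 D3) =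
    (D1 * D1.transpose + D2.transpose * D2 + ε • (1 : Matrix (c1a ⊕ c1b) (c1a ⊕ c1b) ℝ)).det *
      (D3 * D3.transpose + ε • (1 : Matrix c3 c3 ℝ)).det := by
  have t32 : D2.transpose * D3.transpose = 0 := by
    rw [← Matrix.transpose_mul, h32, Matrix.transpose_zero]
  unfold gd F
  rw [Matrix.fromBlocks_transpose, Matrix.fromBlocks_multiply, ← Matrix.fromBlocks_one,
    Matrix.fromBlocks_smul, Matrix.fromBlocks_add]
  simp only [Matrix.transpose_zero, Matrix.mul_zero, Matrix.zero_mul, add_zero, zero_add,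
    Matrix.transpose_transpose, smul_zero, h32, t32]
  rw [Matrix.det_fromBlocks_zero₂₁]

/-- the rows of degree 0 -/
def pb : (c1a ⊕ c0) ⊕ c3 → Bool := Sum.elim (Sum.elim (fun _ => false) fun _ => true) fun _ => false

/-- the columns of degree 0 -/
def qb : c0 ⊕ (c2a ⊕ c3) → Bool := Sum.elim (fun _ => true) fun _ => false

/-- the rows of degree 0 and 1 -/
def pb2 : (c1a ⊕ c0) ⊕ c3 → Bool := Sum.elim (fun _ => true) fun _ => false

/-- the columns of degree 0 and 2 -/
def qb2 : c0 ⊕ (c2a ⊕ c3) → Bool := Sum.elim (fun _ => true) (Sum.elim (fun _ => true)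
  fun _ => false)

theorem tri_bound (hT : TRIStmt) (A : Matrix c1a c0 ℝ) (X0 : Matrix c0 c0 ℝ)
    (E : Matrix c1a c2a ℝ) (A3 : Matrix c3 c2a ℝ) (X3 : Matrix c3 c3 ℝ) (η : ℝ) (hη : 0 < η) :
    (X0 * X0.transpose + η • (1 : Matrix c0 c0 ℝ)).det *
      (X3 * X3.transpose + η • (1 : Matrix c3 c3 ℝ)).det * gd η E ≤
    gd η (fromBlocks (fromRows A X0) (fromBlocks E 0 0 0) 0 (fromCols A3 X3)) := by
  set P := fromBlocks (fromRows A X0) (fromBlocks E (0 : Matrix c1a c3 ℝ)
    (0 : Matrix c0 c2a ℝ) 0) 0 (fromCols A3 X3) with hP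
  have s1 := hT _ _ P (fun i => pb i = true) (fun j => qb j = true) η hη (by
    rintro ((i | i) | i) (j | j | j) hi hj <;> simp_all [pb, qb])
  set P1 : Matrix ((c1a ⊕ c0) ⊕ c3) (c0 ⊕ (c2a ⊕ c3)) ℝ := Matrix.of fun i j =>
    if (pb i = true ↔ qb j = true) then P i j else 0 with hP1
  have s2 := hT _ _ P1 (fun i => pb2 i = true) (fun j => qb2 j = true) η hη (by
    rintro ((i | i) | i) (j | j | j) hi hj <;> simp_all [pb2, qb2, pb, qb])
  refine le_trans (le_of_eq ?_) (s2.trans s1)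
  have e : (Matrix.of fun i j => if (pb2 i = true ↔ qb2 j = true) then P1 i j else 0) =
      fromBlocks (fromRows (0 : Matrix c1a c0 ℝ) X0) (fromBlocks E (0 : Matrix c1a c3 ℝ)
      (0 : Matrix c0 c2a ℝ) 0) 0 (fromCols (0 : Matrix c3 c2a ℝ) X3) := by
    ext i j
    rcases i with ((i | i) | i) <;> rcases j with (j | j | j) <;>
      simp [hP1, hP, pb2, qb2, pb, qb]
  rw [e]
  unfold gd
  rw [Matrix.fromBlocks_transpose, Matrix.fromBlocks_multiply]
  simp only [Matrix.transpose_fromRows, Matrix.transpose_fromCols, Matrix.fromBlocks_transpose,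
    Matrix.transpose_zero, Matrix.fromRows_mul_fromCols, Matrix.fromBlocks_multiply,
    Matrix.fromCols_mul_fromRows, Matrix.fromBlocks_mul_fromRows, Matrix.fromCols_mul_fromBlocks,
    Matrix.mul_zero, Matrix.zero_mul, add_zero, zero_add, Matrix.fromBlocks_add,
    Matrix.fromRows_zero, Matrix.fromCols_zero]
  rw [← Matrix.fromBlocks_one, Matrix.fromBlocks_smul, Matrix.fromBlocks_add,
    ← Matrix.fromBlocks_one, Matrix.fromBlocks_smul, Matrix.fromBlocks_add]
  simp only [add_zero, smul_zero]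
  rw [Matrix.det_fromBlocks_zero₂₁, Matrix.det_fromBlocks_zero₂₁]
  ring

theorem main (hP : PRDStmt) (hT : TRIStmt) (hS : SWPStmt) (hB : SCBStmt) : FUIStmt := by
  intro c0 c1a c1b c2a c2b c3 _ _ _ _ _ _ _ _ _ _ _ _ D1 D2 D3 B ε hε hB0 h21 h32 k1 k2 k3 b1 b3
  set Δ1 := (D1 * D1.transpose + D2.transpose * D2 +
    ε • (1 : Matrix (c1a ⊕ c1b) (c1a ⊕ c1b) ℝ)).det
  set Δ3 := (D3 * D3.transpose + ε • (1 : Matrix c3 c3 ℝ)).det
  have hε2 : 0 < ε * ε := mul_pos hε hε
  have hε3 : 0 < ε ^ 3 := pow_pos hε 3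
  -- the product
  have q0 : ((D1.transpose * D1) ^ 2 + (ε ^ 3) • (1 : Matrix c0 c0 ℝ)).det *
      ((D3 * D3.transpose) ^ 2 + (ε ^ 3) • (1 : Matrix c3 c3 ℝ)).det *
      gd (ε ^ 3) (D2.toBlocks₁₁.transpose) ≤
      gd (ε ^ 3) (fromBlocks (U D1) 0 0 (1 : Matrix c3 c3 ℝ) * (F D1 D2 D3 *
        fromBlocks (1 : Matrix c0 c0 ℝ) 0 0 (V D3))) := by
    rw [prod_eq D1 D2 D3 h21 h32]
    have := tri_bound hT D1.toRows₁ (D1.transpose * D1) (D2.toBlocks₁₁.transpose) D3.toCols₁
      (D3 * D3.transpose) (ε ^ 3) hε3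
    have e0 : (D1.transpose * D1).transpose = D1.transpose * D1 := by
      rw [Matrix.transpose_mul, Matrix.transpose_transpose]
    have e3 : (D3 * D3.transpose).transpose = D3 * D3.transpose := by
      rw [Matrix.transpose_mul, Matrix.transpose_transpose]
    rw [e0, e3, ← sq, ← sq] at this
    exact this
  -- first product
  have q1 := hP _ _ _ (fromBlocks (U D1) 0 0 (1 : Matrix c3 c3 ℝ)) (F D1 D2 D3 *
    fromBlocks (1 : Matrix c0 c0 ℝ) 0 0 (V D3)) ε (ε * ε) hε hε2
    (by simp only [Fintype.card_sum]; omega)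
  have q2 := hP _ _ _ (F D1 D2 D3) (fromBlocks (1 : Matrix c0 c0 ℝ) 0 0 (V D3)) ε ε hε hε
    (by simp only [Fintype.card_sum]; omega)
  rw [← hS _ _ (F D1 D2 D3) ε (by simp only [Fintype.card_sum]; omega), gdF D1 D2 D3 h32] at q2
  rw [← hS _ _ (fromBlocks (U D1) 0 0 (1 : Matrix c3 c3 ℝ)) ε
    (by simp only [Fintype.card_sum]; omega), gd_one_below] at q1
  rw [gd_one_above, hS _ _ (V D3) ε (by simp only [Fintype.card_sum]; omega)] at q2
  -- the error blocks
  have hPSD1 : (B • (1 : Matrix c0 c0 ℝ) - D1.toRows₁.transpose *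
      D1.toRows₁.transpose.transpose).PosSemidef := by
    have e : B • (1 : Matrix c0 c0 ℝ) - D1.toRows₁.transpose * D1.toRows₁.transpose.transpose =
        (B • (1 : Matrix c0 c0 ℝ) - D1.transpose * D1) +
          D1.toRows₂.transpose * D1.toRows₂.transpose.transpose := by
      conv_rhs => rw [← Matrix.fromRows_toRows D1]
      rw [Matrix.transpose_fromRows, Matrix.fromCols_mul_fromRows, Matrix.transpose_transpose,
        Matrix.transpose_transpose, Matrix.toRows₂_fromRows]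
      abel
    rw [e]
    exact b1.add (psd_mul_transpose _)
  have hPSD3 : (B • (1 : Matrix c3 c3 ℝ) - D3.toCols₁ * D3.toCols₁.transpose).PosSemidef := by
    have e : B • (1 : Matrix c3 c3 ℝ) - D3.toCols₁ * D3.toCols₁.transpose =
        (B • (1 : Matrix c3 c3 ℝ) - D3 * D3.transpose) +
          D3.toCols₂ * D3.toCols₂.transpose := by
      conv_rhs => rw [← Matrix.fromCols_toCols D3]
      rw [Matrix.transpose_fromCols, Matrix.fromCols_mul_fromRows, Matrix.toCols₂_fromCols]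
      abel
    rw [e]
    exact b3.add (psd_mul_transpose _)
  have r1 := hB _ _ _ D1.toRows₁.transpose D1.toRows₂.transpose B ε hε hB0 hPSD1
  have r3 := hB _ _ _ D3.toCols₁ D3.toCols₂ B ε hε hB0 hPSD3
  have g1 : gd ε (U D1) ≤ (1 + ε) ^ (Fintype.card c1a) *
      gd (ε * (1 + B)) (Matrix.of fun (i : c0) (j : c1b) => D1 (Sum.inr j) i) := by
    refine le_trans (le_of_eq ?_) r1
    unfold gd U
    rw [Matrix.transpose_fromRows, Matrix.fromRows_mul_fromCols, Matrix.transpose_fromCols,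
      Matrix.transpose_transpose, Matrix.transpose_one, Matrix.transpose_zero,
      Matrix.fromCols_mul_fromRows, Matrix.mul_one, Matrix.mul_zero, add_zero]
    have e1 : (fromCols (1 : Matrix c1a c1a ℝ) (0 : Matrix c1a c1b ℝ)) * D1 = D1.toRows₁ := by
      conv_lhs => rw [← Matrix.fromRows_toRows D1]
      rw [Matrix.fromCols_mul_fromRows, Matrix.one_mul, Matrix.zero_mul, add_zero]
    have e2 : D1.transpose * (fromRows (1 : Matrix c1a c1a ℝ) (0 : Matrix c1b c1a ℝ)) =
        D1.toRows₁.transpose := by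
      conv_lhs => rw [← Matrix.fromRows_toRows D1]
      rw [Matrix.transpose_fromRows, Matrix.fromCols_mul_fromRows, Matrix.mul_one,
        Matrix.mul_zero, add_zero]
    have e3 : D1.transpose * D1 = D1.toRows₁.transpose * D1.toRows₁.transpose.transpose +
        D1.toRows₂.transpose * D1.toRows₂.transpose.transpose := by
      conv_lhs => rw [← Matrix.fromRows_toRows D1]
      rw [Matrix.transpose_fromRows, Matrix.fromCols_mul_fromRows, Matrix.transpose_transpose,
        Matrix.transpose_transpose]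
    rw [e1, e2, e3, Matrix.transpose_transpose]
  have g3 : gd ε (V D3).transpose ≤ (1 + ε) ^ (Fintype.card c2a) *
      gd (ε * (1 + B)) D3.toCols₂ := by
    refine le_trans (le_of_eq ?_) r3
    unfold gd V
    rw [Matrix.transpose_transpose, Matrix.transpose_fromCols, Matrix.transpose_transpose,
      Matrix.fromRows_mul_fromCols, Matrix.transpose_fromRows, Matrix.transpose_one,
      Matrix.transpose_zero, Matrix.fromCols_mul_fromRows, Matrix.mul_one, Matrix.mul_zero,
      add_zero]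
    have e1 : (fromCols (1 : Matrix c2a c2a ℝ) (0 : Matrix c2a c2b ℝ)) * D3.transpose =
        D3.toCols₁.transpose := by
      conv_lhs => rw [← Matrix.fromCols_toCols D3]
      rw [Matrix.transpose_fromCols, Matrix.fromCols_mul_fromRows, Matrix.one_mul,
        Matrix.zero_mul, add_zero]
    have e2 : D3 * (fromRows (1 : Matrix c2a c2a ℝ) (0 : Matrix c2b c2a ℝ)) =
        D3.toCols₁ := by
      conv_lhs => rw [← Matrix.fromCols_toCols D3]
      rw [Matrix.fromCols_mul_fromRows, Matrix.mul_one, Matrix.mul_zero, add_zero]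
    have e3 : D3 * D3.transpose = D3.toCols₁ * D3.toCols₁.transpose +
        D3.toCols₂ * D3.toCols₂.transpose := by
      conv_lhs => rw [← Matrix.fromCols_toCols D3]
      rw [Matrix.transpose_fromCols, Matrix.fromCols_mul_fromRows]
    rw [e1, e2, e3]
  have g3' : gd (ε * (1 + B)) D3.toCols₂ =
      gd (ε * (1 + B)) (Matrix.of fun (i : c2b) (j : c3) => D3 j (Sum.inr i)) :=
    hS _ _ D3.toCols₂ (ε * (1 + B)) (by omega)
  rw [g3'] at g3
  set G1 := gd (ε * (1 + B)) (Matrix.of fun (i : c0) (j : c1b) => D1 (Sum.inr j) i) with hG1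
  set G3 := gd (ε * (1 + B)) (Matrix.of fun (i : c2b) (j : c3) => D3 j (Sum.inr i)) with hG3
  have hBe : 0 ≤ ε * (1 + B) := by positivity
  have nG1 : 0 ≤ G1 := gd_nonneg hBe _
  have nG3 : 0 ≤ G3 := gd_nonneg hBe _
  have nF : 0 ≤ Δ1 * Δ3 := by
    have := gd_nonneg hε.le (F D1 D2 D3)
    rwa [gdF D1 D2 D3 h32] at this
  have n1 : (0 : ℝ) ≤ 1 + ε := by linarith
  have nU : 0 ≤ gd ε (U D1) := gd_nonneg hε.le _
  have nV : 0 ≤ gd ε (V D3).transpose := gd_nonneg hε.le _
  have e3 : ε * (ε * ε) = ε ^ 3 := by ring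
  rw [e3] at q1
  calc _ ≤ _ := q0
    _ ≤ _ := q1
    _ ≤ gd ε (U D1) * (1 + ε) ^ Fintype.card c3 *
        (Δ1 * Δ3 * ((1 + ε) ^ Fintype.card c0 * gd ε (V D3).transpose)) :=
      mul_le_mul_of_nonneg_left q2 (by positivity)
    _ ≤ ((1 + ε) ^ (Fintype.card c1a) * G1) * (1 + ε) ^ Fintype.card c3 *
        (Δ1 * Δ3 * ((1 + ε) ^ Fintype.card c0 * ((1 + ε) ^ (Fintype.card c2a) * G3))) := by
      gcongr
    _ = _ := by
      rw [pow_add, pow_add, pow_add]
      ring

end Fui

theorem fui (hP : PRDStmt) (hT : TRIStmt) (hS : SWPStmt) (hB : SCBStmt) : FUIStmt :=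
  Fui.main hP hT hS hB

end Pool.LU.FK
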